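import Pool.Agent.Run7.h376.Main
import Pool.Agent.Run7.h376.L2W

/-!
# Quotient groups of Banach spaces with a noncompact operator into a Hilbert space

Let `E` be a real Banach space with a noncompact bounded linear operator into a Hilbert space.
Then `E` has a closed subgroup `H` whose quotient group is topologically isomorphic to the group
of measurable functions from the unit interval to the circle, written as the quotient of the
real Hilbert space of square integrable functions by its subgroup of integer-valued functions.
-/

set_option autoImplicit false
universe u v

namespace Pool.Agent.Results.MP_a1a06b_an.HilbertOperator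

open MeasureTheory

/-- A Banach space with a noncompact bounded operator into a Hilbert space has a closed subgroup
whose quotient group is isomorphic, as a topological group, to `L²([0,1],ℝ)` modulo its subgroup
of integer-valued functions. -/
theorem result (E : Type u) [NormedAddCommGroup E] [NormedSpace ℝ E] [CompleteSpace E]
    (F : Type v) [NormedAddCommGroup F] [InnerProductSpace ℝ F] [CompleteSpace F]
    (T : E →L[ℝ] F) (hT : ¬ IsCompactOperator T) :
    ∃ H : AddSubgroup E, IsClosed (H : Set E) ∧
      Nonempty ((E ⧸ H) ≃ₜ+ (Lp ℝ 2 Run7.h376.unitMeas ⧸ Run7.h376.intSub)) := by
  have h2 : Fact ((2 : ENNReal) ≠ ⊤) := ⟨ENNReal.ofNat_ne_top⟩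
  have hsep : IsSeparable Run7.h376.unitMeas := by
    unfold Run7.h376.unitMeas
    infer_instance
  have hsc : SecondCountableTopology (Lp ℝ 2 Run7.h376.unitMeas) := Lp.SecondCountableTopology
  exact Run7.h376.exists_quotient T hT Run7.h376.intSub Run7.h376.isClosed_intSub
    Run7.h376.intSub_W

end Pool.Agent.Results.MP_a1a06b_an.HilbertOperator
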