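import Pool.Agent.Run7.h376.KGroup
import Pool.Agent.Run7.h376.LOne
import Pool.Agent.Run7.h376.ESide

/-!
# Quotient groups of Banach spaces with a uniformly weakly null sequence in the dual

Let `E` be a real Banach space whose dual contains a sequence `f` that is bounded below in norm and
such that for each `η > 0` there is a bound, valid at all points of the unit ball of `E`, for the
number of members of the sequence that exceed `η` in absolute value. Then `E` has a closed subgroup
whose quotient group is topologically isomorphic to the group of measurable functions from the unit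
interval to a nontrivial bounded separable complete normed abelian group.
-/

set_option autoImplicit false
universe u

namespace Pool.Agent.Results.MP_a1a06b_an.UniformlyNullSequence

open MeasureTheory

/-- If the dual of a Banach space `E` contains a sequence bounded below in norm and uniformly null
on the unit ball of `E`, then `E` has a closed subgroup whose quotient group is isomorphic, as a
topological group, to `L¹([0,1],K)` for a nontrivial separable complete normed group `K` all of
whose elements have norm at most one. -/
theorem result (E : Type u) [NormedAddCommGroup E] [NormedSpace ℝ E] [CompleteSpace E]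
    (f : ℕ → E →L[ℝ] ℝ) (c : ℝ) (hc : 0 < c) (hf : ∀ n, c ≤ ‖f n‖)
    (hu : ∀ η : ℝ, 0 < η → ∃ m : ℕ, ∀ x : E, ‖x‖ ≤ 1 → ∀ A : Finset ℕ,
      (∀ n ∈ A, η < |f n x|) → A.card ≤ m) :
    ∃ (K : Type) (_ : NormedAddCommGroup K), CompleteSpace K ∧
      TopologicalSpace.SeparableSpace K ∧ Nontrivial K ∧ (∀ κ : K, ‖κ‖ ≤ 1) ∧
      ∃ H : AddSubgroup E, IsClosed (H : Set E) ∧
        Nonempty ((E ⧸ H) ≃ₜ+ Lp K 1 (volume.restrict (Set.Icc (0 : ℝ) 1))) := by
  obtain ⟨Q, C, y, c', hy, hcy, hcross, hKK⟩ := Run7.h376.exists_Edata hu hc hf
  obtain ⟨δ, K, instK, e, hδ, hcomp, hsep, hnt, hbd, hsym, hshort⟩ := Run7.h376.exists_K Q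
  exact ⟨K, instK, hcomp, hsep, hnt, hbd,
    Run7.h376.exists_quotient_LOne hδ hbd hsym hshort C y c' hy hcy hcross hKK⟩

end Pool.Agent.Results.MP_a1a06b_an.UniformlyNullSequence
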